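import Pool.Agent.Helper63.Sey4.Goals

/-! # Packet SEY4-ORDER: from the rows and places to the cyclic order -/

namespace Pool.Agent.Helper93.Sey4

open Finset
open Pool.Agent.Helper63.Sey4 (GoalORDER)

/-- the lexicographic key -/
def kk (s r p f : ℕ) : ℕ := (r * s + p) * 2 + f

theorem kk_lt_row {s r p f r' p' f' : ℕ} (hr : r < r') (hp : p < s) (hf : f ≤ 1) :
    kk s r p f < kk s r' p' f' := by
  unfold kk
  have h1 : (r + 1) * s ≤ r' * s := Nat.mul_le_mul_right s hr
  have h2 : (r + 1) * s = r * s + s := by ring
  omega

theorem kk_lt_pl {s r p f p' f' : ℕ} (hp : p < p') (hf : f ≤ 1) :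
    kk s r p f < kk s r p' f' := by
  unfold kk
  omega

theorem kk_inj {s r p f r' p' f' : ℕ} (hp : p < s) (hf : f ≤ 1) (hp' : p' < s) (hf' : f' ≤ 1)
    (h : kk s r p f = kk s r' p' f') : r = r' ∧ p = p' ∧ f = f' := by
  have hr : r = r' := by
    rcases lt_trichotomy r r' with h1 | h1 | h1
    · have := kk_lt_row (s := s) (p' := p') (f' := f') h1 hp hf
      omega
    · exact h1
    · have := kk_lt_row (s := s) (p' := p) (f' := f) h1 hp' hf'
      omega
  subst hr
  refine ⟨rfl, ?_⟩
  unfold kk at h
  omega

/-- the abstract enumeration: an injective key gives an equivalence with `Fin n`, where the index is the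
number of the smaller elements. -/
theorem exists_enum {V : Type} [Fintype V] (key : V → ℕ) (hk : Function.Injective key) :
    ∃ σ : Fin (Fintype.card V) ≃ V, ∀ i, i.val = (univ.filter (fun u => key u < key (σ i))).card := by
  classical
  have hlt : ∀ v : V, (univ.filter (fun u => key u < key v)).card < Fintype.card V := by
    intro v
    have : univ.filter (fun u => key u < key v) ⊂ (univ : Finset V) := by
      rw [Finset.ssubset_univ_iff]
      intro h
      have h2 : v ∈ univ.filter (fun u => key u < key v) := by rw [h]; exact mem_univ v
      simp at h2
    exact Finset.card_lt_card this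
  let idx : V → Fin (Fintype.card V) := fun v => ⟨_, hlt v⟩
  have hmono : ∀ v w : V, key v < key w → idx v < idx w := by
    intro v w hvw
    show (univ.filter (fun u => key u < key v)).card < (univ.filter (fun u => key u < key w)).card
    apply Finset.card_lt_card
    rw [Finset.ssubset_iff_of_subset]
    · refine ⟨v, ?_, ?_⟩
      · simp [hvw]
      · simp
    · intro u hu
      simp only [mem_filter, mem_univ, true_and] at hu ⊢
      omega
  have hinj : Function.Injective idx := by
    intro v w h
    rcases lt_trichotomy (key v) (key w) with h1 | h1 | h1
    · have := hmono v w h1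
      rw [h] at this
      exact absurd this (lt_irrefl _)
    · exact hk h1
    · have := hmono w v h1
      rw [h] at this
      exact absurd this (lt_irrefl _)
  have hbij : Function.Bijective idx :=
    (Fintype.bijective_iff_injective_and_card idx).2 ⟨hinj, by simp⟩
  refine ⟨(Equiv.ofBijective idx hbij).symm, ?_⟩
  intro i
  have h1 : idx ((Equiv.ofBijective idx hbij).symm i) = i :=
    (Equiv.ofBijective idx hbij).apply_symm_apply i
  conv_lhs => rw [← h1]

theorem card_between {V : Type} [Fintype V] [DecidableEq V] (key : V → ℕ) (v w : V)
    (h : key v ≤ key w) :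
    (univ.filter (fun u => key u < key v)).card +
      (univ.filter (fun u => key v ≤ key u ∧ key u < key w)).card =
      (univ.filter (fun u => key u < key w)).card := by
  rw [← Finset.card_union_of_disjoint]
  · congr 1
    ext u
    simp only [mem_union, mem_filter, mem_univ, true_and]
    omega
  · rw [Finset.disjoint_left]
    intro u hu hu2
    simp only [mem_filter, mem_univ, true_and] at hu hu2
    omega

theorem card_outside {V : Type} [Fintype V] [DecidableEq V] (key : V → ℕ) (v w : V)
    (h : key w ≤ key v) :
    (univ.filter (fun u => key v ≤ key u ∨ key u < key w)).card +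
      (univ.filter (fun u => key u < key v)).card =
      Fintype.card V + (univ.filter (fun u => key u < key w)).card := by
  have h1 : (univ.filter (fun u => key v ≤ key u ∨ key u < key w)).card =
      (univ.filter (fun u => key v ≤ key u)).card + (univ.filter (fun u => key u < key w)).card := by
    rw [← Finset.card_union_of_disjoint]
    · congr 1
      ext u
      simp only [mem_union, mem_filter, mem_univ, true_and]
    · rw [Finset.disjoint_left]
      intro u hu hu2
      simp only [mem_filter, mem_univ, true_and] at hu hu2
      omega
  have h2 : (univ.filter (fun u => key v ≤ key u)).card +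
      (univ.filter (fun u => key u < key v)).card = Fintype.card V := by
    rw [← Finset.card_union_of_disjoint]
    · rw [← Finset.card_univ]
      congr 1
      ext u
      simp only [mem_union, mem_filter, mem_univ, true_and, iff_true]
      omega
    · rw [Finset.disjoint_left]
      intro u hu hu2
      simp only [mem_filter, mem_univ, true_and] at hu hu2
      omega
  omega

theorem goalORDER : GoalORDER := by
  classical
  intro V _ H s Δ row pl fl hs hΔ hb hinj hex hadj
  let key : V → ℕ := fun v => kk s (row v) (pl v) (fl v)
  have hkey : ∀ v, key v = kk s (row v) (pl v) (fl v) := fun _ => rfl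
  have hkinj : Function.Injective key := by
    intro u v h
    obtain ⟨h1, h2, h3⟩ := kk_inj (hb u).2.1 (hb u).2.2 (hb v).2.1 (hb v).2.2 h
    exact hinj u v h1 h2 h3
  have : Nonempty V := ⟨(hex 0 (by omega) 0 (by omega)).choose⟩
  choose! c hc1 hc2 hc3 using hex
  obtain ⟨σ, hσ⟩ := exists_enum key hkinj
  refine ⟨σ, ?_⟩
  intro i k hik hd hH
  set v := σ i with hv
  set w := σ k with hw
  have hvw : v ≠ w := by
    intro h
    exact hik (σ.injective (by rw [← hv, ← hw, h]))
  obtain ⟨hrow, hpl⟩ := hadj v w hH
  have hi := hσ i
  have hk := hσ k
  rw [← hv] at hi
  rw [← hw] at hk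
  -- a criterion
  have hcrit : ∀ (T : Finset V) (f : ℕ → V), (∀ p < s, f p ∈ T) →
      (∀ p < s, ∀ q < s, p < q → key (f p) ≠ key (f q)) → s ≤ T.card := by
    intro T f hf hfi
    have h1 : (Finset.range s).card ≤ T.card := by
      apply Finset.card_le_card_of_injOn f
      · intro p hp
        exact hf p (by simpa using hp)
      · intro p hp q hq hpq
        have hp' : p < s := by simpa using hp
        have hq' : q < s := by simpa using hq
        rcases lt_trichotomy p q with h | h | h
        · exact absurd (by rw [hpq]) (hfi p hp' q hq' h)
        · exact h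
        · exact absurd (by rw [hpq]) (hfi q hq' p hp' h)
    simpa using h1
  -- rows
  have hkc : ∀ g < Δ, ∀ p < s, key (c g p) = kk s g p 0 := by
    intro g hg p hp
    rw [hkey, hc1 g hg p hp, hc2 g hg p hp, hc3 g hg p hp]
  have hrowcrit : ∀ (T : Finset V) (g : ℕ), g < Δ → (∀ p < s, c g p ∈ T) → s ≤ T.card := by
    intro T g hg hT
    apply hcrit T (c g) hT
    intro p hp q hq hpq
    rw [hkc g hg p hp, hkc g hg q hq]
    exact (kk_lt_pl hpq (by omega)).ne
  -- the mixed map
  have hmix : ∀ (T : Finset V), v ∈ T →
      (∀ p < s, pl v < p → c (row v) p ∈ T) → (∀ p < s, p < pl v → c (row w) p ∈ T) →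
      s ≤ T.card := by
    intro T hvT h1 h2
    apply hcrit T (fun p => if pl v < p then c (row v) p else if p < pl v then c (row w) p else v)
    · intro p hp
      by_cases ha : pl v < p
      · simp only [ha, if_true]
        exact h1 p hp ha
      · by_cases hb2 : p < pl v
        · simp only [ha, hb2, if_true, if_false]
          exact h2 p hp hb2
        · simp only [ha, hb2, if_false]
          exact hvT
    · intro p hp q hq hpq heq
      have e1 : ∀ p < s, row (if pl v < p then c (row v) p else if p < pl v then c (row w) p else v)
          = (if p < pl v then row w else row v) ∧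
          pl (if pl v < p then c (row v) p else if p < pl v then c (row w) p else v) = p := by
        intro p hp
        by_cases ha : pl v < p
        · have hb2 : ¬ p < pl v := by omega
          simp only [ha, hb2, if_true, if_false]
          exact ⟨hc1 _ (hb v).1 p hp, hc2 _ (hb v).1 p hp⟩
        · by_cases hb2 : p < pl v
          · simp only [ha, hb2, if_true, if_false]
            exact ⟨hc1 _ (hb w).1 p hp, hc2 _ (hb w).1 p hp⟩
          · rw [if_neg ha, if_neg hb2, if_neg hb2]
            exact ⟨rfl, by omega⟩
      have h3 := hkinj heq
      have h4 := (e1 p hp).2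
      have h5 := (e1 q hq).2
      rw [h3] at h4
      omega
  rcases lt_trichotomy (key v) (key w) with hlt | heq | hgt
  · -- v before w
    have hcard := card_between key v w hlt.le
    rw [← hi, ← hk] at hcard
    have hpos : 0 < (univ.filter (fun u => key v ≤ key u ∧ key u < key w)).card := by
      apply Finset.card_pos.2
      exact ⟨v, by simp [hlt]⟩
    have hd2 : (k.val + Fintype.card V - i.val) % Fintype.card V =
        (univ.filter (fun u => key v ≤ key u ∧ key u < key w)).card := by
      have : k.val + Fintype.card V - i.val =
          (univ.filter (fun u => key v ≤ key u ∧ key u < key w)).card + Fintype.card V := by omega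
      rw [this, Nat.add_mod_right, Nat.mod_eq_of_lt]
      have := k.isLt
      omega
    rw [hd2] at hd
    have hrw : row v < row w := by
      rcases lt_trichotomy (row v) (row w) with h | h | h
      · exact h
      · exact absurd h hrow
      · have := kk_lt_row (s := s) (p' := pl v) (f' := fl v) h (hb w).2.1 (hb w).2.2
        rw [← hkey, ← hkey] at this
        omega
    have : s ≤ (univ.filter (fun u => key v ≤ key u ∧ key u < key w)).card := by
      by_cases h2 : row v + 2 ≤ row w
      · have hg : row v + 1 < Δ := by have := (hb w).1; omega
        apply hrowcrit _ (row v + 1) hg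
        intro p hp
        simp only [mem_filter, mem_univ, true_and]
        rw [hkc _ hg p hp, hkey v, hkey w]
        exact ⟨(kk_lt_row (by omega) (hb v).2.1 (hb v).2.2).le,
          kk_lt_row (by omega) hp (by omega)⟩
      · have h3 : row w = row v + 1 := by omega
        have h4 : (row v + 1) % Δ = row w := by
          rw [← h3]
          exact Nat.mod_eq_of_lt (hb w).1
        have h5 := hpl h4
        apply hmix
        · simp [hlt]
        · intro p hp hvp
          simp only [mem_filter, mem_univ, true_and]
          rw [hkc _ (hb v).1 p hp, hkey v, hkey w]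
          exact ⟨(kk_lt_pl hvp (hb v).2.2).le, kk_lt_row hrw hp (by omega)⟩
        · intro p hp hpv
          simp only [mem_filter, mem_univ, true_and]
          rw [hkc _ (hb w).1 p hp, hkey v, hkey w]
          exact ⟨(kk_lt_row hrw (hb v).2.1 (hb v).2.2).le, kk_lt_pl (by omega) (by omega)⟩
    omega
  · exact hvw (hkinj heq)
  · -- w before v
    have hcard := card_outside key v w hgt.le
    rw [← hi, ← hk] at hcard
    have hki : k.val < i.val := by
      have h1 := card_between key w v hgt.le
      rw [← hi, ← hk] at h1
      have hpos : 0 < (univ.filter (fun u => key w ≤ key u ∧ key u < key v)).card := by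
        apply Finset.card_pos.2
        exact ⟨w, by simp [hgt]⟩
      omega
    have hd2 : (k.val + Fintype.card V - i.val) % Fintype.card V =
        (univ.filter (fun u => key v ≤ key u ∨ key u < key w)).card := by
      rw [Nat.mod_eq_of_lt (by omega)]
      omega
    rw [hd2] at hd
    have : s ≤ (univ.filter (fun u => key v ≤ key u ∨ key u < key w)).card := by
      by_cases h1 : row v + 1 < Δ
      · have hg : Δ - 1 < Δ := by omega
        apply hrowcrit _ (Δ - 1) hg
        intro p hp
        simp only [mem_filter, mem_univ, true_and]
        rw [hkc _ hg p hp, hkey v, hkey w]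
        exact Or.inl (kk_lt_row (by omega) (hb v).2.1 (hb v).2.2).le
      · by_cases h2 : 0 < row w
        · have hg : 0 < Δ := by omega
          apply hrowcrit _ 0 hg
          intro p hp
          simp only [mem_filter, mem_univ, true_and]
          rw [hkc _ hg p hp, hkey v, hkey w]
          exact Or.inr (kk_lt_row (by omega) hp (by omega))
        · have h3 : row v + 1 = Δ := by have := (hb v).1; omega
          have h4 : (row v + 1) % Δ = row w := by
            rw [h3, Nat.mod_self]
            omega
          have h5 := hpl h4
          apply hmix
          · simp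
          · intro p hp hvp
            simp only [mem_filter, mem_univ, true_and]
            rw [hkc _ (hb v).1 p hp, hkey v, hkey w]
            exact Or.inl (kk_lt_pl hvp (hb v).2.2).le
          · intro p hp hpv
            simp only [mem_filter, mem_univ, true_and]
            rw [hkc _ (hb w).1 p hp, hkey v, hkey w]
            exact Or.inr (kk_lt_pl (by omega) (by omega))
    omega

end Pool.Agent.Helper93.Sey4
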